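import Mathlib
import Pool.Agent.MP_850d05_lc.Defs
import Pool.Agent.MP_850d05_lc.Ultra

-- part MP_850d05_lc.Prim
section

/-! Automation for primitive recursive functions (adapted from the team library). -/

namespace Pool.Agent.MP_850d05_lc

open Encodable

variable {α β γ σ : Type} [Primcodable α] [Primcodable β] [Primcodable γ] [Primcodable σ]

attribute [fun_prop] Primrec

@[fun_prop] theorem pr_id : Primrec (fun x : α => x) := Primrec.id

@[fun_prop] theorem pr_const (s : σ) : Primrec (fun _ : α => s) := Primrec.const s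

@[fun_prop] theorem pr_comp {f : β → σ} {g : α → β} (hf : Primrec f) (hg : Primrec g) :
    Primrec fun a => f (g a) := hf.comp hg

@[fun_prop] theorem pr_pair {f : α → β} {g : α → γ} (hf : Primrec f) (hg : Primrec g) :
    Primrec fun a => (f a, g a) := hf.pair hg

@[fun_prop] theorem pr_fst {f : α → β × γ} (hf : Primrec f) : Primrec fun a => (f a).1 :=
  Primrec.fst.comp hf

@[fun_prop] theorem pr_snd {f : α → β × γ} (hf : Primrec f) : Primrec fun a => (f a).2 :=
  Primrec.snd.comp hf

@[fun_prop] theorem pr_add {f g : α → ℕ} (hf : Primrec f) (hg : Primrec g) :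
    Primrec fun a => f a + g a := Primrec.nat_add.comp hf hg

@[fun_prop] theorem pr_sub {f g : α → ℕ} (hf : Primrec f) (hg : Primrec g) :
    Primrec fun a => f a - g a := Primrec.nat_sub.comp hf hg

@[fun_prop] theorem pr_mul {f g : α → ℕ} (hf : Primrec f) (hg : Primrec g) :
    Primrec fun a => f a * g a := Primrec.nat_mul.comp hf hg

@[fun_prop] theorem pr_div {f g : α → ℕ} (hf : Primrec f) (hg : Primrec g) :
    Primrec fun a => f a / g a := Primrec.nat_div.comp hf hg

@[fun_prop] theorem pr_mod {f g : α → ℕ} (hf : Primrec f) (hg : Primrec g) :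
    Primrec fun a => f a % g a := Primrec.nat_mod.comp hf hg

@[fun_prop] theorem pr_pow {f g : α → ℕ} (hf : Primrec f) (hg : Primrec g) :
    Primrec fun a => f a ^ g a :=
  Primrec₂.comp (f := fun a b : ℕ => a ^ b) (Primrec₂.unpaired'.1 Nat.Primrec.pow) hf hg

@[fun_prop] theorem pr_natPair {f g : α → ℕ} (hf : Primrec f) (hg : Primrec g) :
    Primrec fun a => Nat.pair (f a) (g a) := Primrec₂.natPair.comp hf hg

@[fun_prop] theorem pr_unpair {f : α → ℕ} (hf : Primrec f) : Primrec fun a => Nat.unpair (f a) :=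
  Primrec.unpair.comp hf

@[fun_prop] theorem pr_cons {f : α → β} {g : α → List β} (hf : Primrec f) (hg : Primrec g) :
    Primrec fun a => f a :: g a := Primrec.list_cons.comp hf hg

@[fun_prop] theorem pr_append {f g : α → List β} (hf : Primrec f) (hg : Primrec g) :
    Primrec fun a => f a ++ g a := Primrec.list_append.comp hf hg

@[fun_prop] theorem pr_length {f : α → List β} (hf : Primrec f) :
    Primrec fun a => (f a).length := Primrec.list_length.comp hf

@[fun_prop] theorem pr_range {f : α → ℕ} (hf : Primrec f) :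
    Primrec fun a => List.range (f a) := Primrec.list_range.comp hf

@[fun_prop] theorem pr_getD {f : α → List β} {g : α → ℕ} (d : β) (hf : Primrec f)
    (hg : Primrec g) : Primrec fun a => (f a).getD (g a) d := (Primrec.list_getD d).comp hf hg

@[fun_prop] theorem pr_map {f : α → List β} {g : α → β → σ} (hf : Primrec f)
    (hg : Primrec fun p : α × β => g p.1 p.2) : Primrec fun a => (f a).map (g a) :=
  Primrec.list_map hf hg

@[fun_prop] theorem pr_not {f : α → Bool} (hf : Primrec f) : Primrec fun a => !(f a) :=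
  Primrec.not.comp hf

@[fun_prop] theorem pr_and {f g : α → Bool} (hf : Primrec f) (hg : Primrec g) :
    Primrec fun a => (f a && g a) := Primrec.and.comp hf hg

@[fun_prop] theorem pr_xor {f g : α → Bool} (hf : Primrec f) (hg : Primrec g) :
    Primrec fun a => xor (f a) (g a) := (Primrec.dom_bool₂ xor).comp hf hg

theorem pp_eq {f g : α → β} (hf : Primrec f) (hg : Primrec g) : PrimrecPred fun a => f a = g a :=
  Primrec.eq.comp hf hg

theorem pp_le {f g : α → ℕ} (hf : Primrec f) (hg : Primrec g) : PrimrecPred fun a => f a ≤ g a :=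
  Primrec.nat_le.comp hf hg

theorem pp_lt {f g : α → ℕ} (hf : Primrec f) (hg : Primrec g) : PrimrecPred fun a => f a < g a :=
  Primrec.nat_lt.comp hf hg

theorem pp_imp {p q : α → Prop} (hp : PrimrecPred p) (hq : PrimrecPred q) :
    PrimrecPred fun a => p a → q a :=
  (hp.not.or hq).of_eq fun a => by tauto

@[fun_prop] theorem pr_testBit {f g : α → ℕ} (hf : Primrec f) (hg : Primrec g) :
    Primrec fun a => (f a).testBit (g a) :=
  (pp_eq (f := fun a => f a / 2 ^ g a % 2) (g := fun _ => 1) (by fun_prop)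
    (by fun_prop)).decide.of_eq fun a => Nat.testBit_eq_decide_div_mod_eq.symm

theorem pp_all {p : α → β → Prop} (hp : PrimrecPred fun x : α × β => p x.1 x.2)
    {l : α → List β} (hl : Primrec l) : PrimrecPred fun a => ∀ b ∈ l a, p a b :=
  (PrimrecRel.forall_mem_list (R := fun (b : β) (a : α) => p a b)
    (hp.comp (f := fun y : β × α => (y.2, y.1)) (by fun_prop))).comp hl Primrec.id

theorem pp_all_lt {p : α → ℕ → Prop} (hp : PrimrecPred fun x : α × ℕ => p x.1 x.2)
    {l : α → ℕ} (hl : Primrec l) : PrimrecPred fun a => ∀ b < l a, p a b :=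
  (pp_all hp (l := fun a => List.range (l a)) (by fun_prop)).of_eq fun a => by simp

theorem pp_ex_lt {p : α → ℕ → Prop} (hp : PrimrecPred fun x : α × ℕ => p x.1 x.2)
    {l : α → ℕ} (hl : Primrec l) : PrimrecPred fun a => ∃ b < l a, p a b :=
  (pp_all_lt (p := fun a b => ¬ p a b) hp.not hl).not.of_eq fun a => by simp

open Classical in
/-- The least `k < t` satisfying `P`, or `t` if there is none. -/
noncomputable def least (P : ℕ → Prop) (t : ℕ) : ℕ :=
  Nat.findGreatest (fun m => ∀ k < m, ¬ P k) t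

theorem least_le (P : ℕ → Prop) (t : ℕ) : least P t ≤ t := by
  classical
  exact Nat.findGreatest_le t

theorem least_min (P : ℕ → Prop) (t : ℕ) : ∀ k < least P t, ¬ P k := by
  classical
  exact Nat.findGreatest_spec (P := fun m => ∀ k < m, ¬ P k) (Nat.zero_le t) (by simp)

theorem least_le_of {P : ℕ → Prop} (t : ℕ) {k : ℕ} (hk : P k) : least P t ≤ k := by
  by_contra h
  exact least_min P t k (by omega) hk

theorem least_spec {P : ℕ → Prop} {t : ℕ} (h : least P t < t) : P (least P t) := by
  classical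
  by_contra hn
  have h1 : least P t + 1 ≤ least P t := by
    refine Nat.le_findGreatest (P := fun m => ∀ k < m, ¬ P k) h fun k hk => ?_
    rcases (Nat.lt_succ_iff.1 hk).lt_or_eq with hk | rfl
    · exact least_min P t k hk
    · exact hn
  omega

theorem pr_least {p : α → ℕ → Prop} (hp : PrimrecPred fun x : α × ℕ => p x.1 x.2)
    {l : α → ℕ} (hl : Primrec l) : Primrec fun a => least (p a) (l a) := by
  classical
  refine Primrec.nat_findGreatest (p := fun a m => ∀ k < m, ¬ p a k) hl ?_
  exact pp_all_lt (α := α × ℕ) (p := fun x k => ¬ p x.1 k)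
    (hp.comp (f := fun y : (α × ℕ) × ℕ => (y.1.1, y.2)) (by fun_prop)).not Primrec.snd

theorem pr_count {p : α → ℕ → Prop} [∀ a, DecidablePred (p a)]
    (hp : PrimrecPred fun x : α × ℕ => p x.1 x.2) {l : α → ℕ} (hl : Primrec l) :
    Primrec fun a => Nat.count (p a) (l a) := by
  have h1 : Primrec₂ fun (a : α) (y : ℕ × ℕ) => y.2 + if p a y.1 then 1 else 0 :=
    Primrec.nat_add.comp (Primrec.snd.comp Primrec.snd)
      (Primrec.ite (hp.comp (f := fun y : α × ℕ × ℕ => (y.1, y.2.1)) (by fun_prop))
        (Primrec.const 1) (Primrec.const 0))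
  refine (Primrec.nat_rec' hl (Primrec.const 0) h1).of_eq fun a => ?_
  induction l a with
  | zero => simp
  | succ n ih => rw [Nat.count_succ, ← ih]

@[fun_prop] theorem pr_log {f : α → ℕ} (hf : Primrec f) : Primrec fun a => Nat.log 2 (f a) := by
  have h : Primrec fun x : ℕ => least (fun a => x < 2 ^ (a + 1)) x :=
    pr_least (p := fun x a => x < 2 ^ (a + 1)) (pp_lt (by fun_prop) (by fun_prop)) Primrec.id
  refine (h.of_eq fun x => ?_).comp hf
  rcases Nat.eq_zero_or_pos x with rfl | hx
  · simpa using least_le _ 0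
  have h1 : least (fun a => x < 2 ^ (a + 1)) x ≤ Nat.log 2 x :=
    least_le_of x (Nat.lt_pow_succ_log_self one_lt_two x)
  have h2 : Nat.log 2 x < x := Nat.log_lt_self 2 hx.ne'
  have h3 := least_spec (h1.trans_lt h2)
  have h4 := Nat.log_lt_of_lt_pow hx.ne' h3
  omega

end Pool.Agent.MP_850d05_lc

end

-- part MP_850d05_lc.Guess
section

/-! A primitive recursive guess for Pi three questions that is correct along every nonzero
idempotent ultrafilter. -/

namespace Pool.Agent.MP_850d05_lc

open Filter Nat.Partrec Nat.Partrec.Code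

/-- Program `e` has not halted on `w` within `s` steps. -/
def Runs (e w s : ℕ) : Prop := evaln s (Denumerable.ofNat Code e) w = Option.none

/-- The universal Pi three predicate. -/
def P3 (e k : ℕ) : Prop := ∀ b, ∃ c, ∀ s, Runs e (Nat.pair (Nat.pair k b) c) s

theorem Runs.mono {e w s s' : ℕ} (h : s ≤ s') (hr : Runs e w s') : Runs e w s := by
  unfold Runs at hr ⊢
  rcases hx : evaln s (Denumerable.ofNat Code e) w with _ | x
  · rfl
  · have := evaln_mono h (Option.mem_def.2 hx)
    rw [hr] at this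
    simp at this

theorem exists_index {p : ℕ → Prop} (hp : IsSigma 4 p) :
    ∃ e, ∀ n, p n ↔ ∃ y, P3 e (Nat.pair n y) := by
  obtain ⟨q3, ⟨q2, ⟨q1, ⟨q0, ⟨_, h0⟩, h1⟩, h2⟩, h3⟩, h4⟩ := hp
  have hc : Computable₂ fun w d : ℕ => !decide (q0 (Nat.pair w d)) :=
    Primrec.not.to_comp.comp (h0.comp (Primrec₂.natPair.to_comp))
  obtain ⟨c, hcode⟩ := exists_code.1 (Partrec.nat_iff.1 (Partrec.rfind hc.partrec₂))
  have key : ∀ w, ¬ q1 w ↔ ∀ s, Runs (Encodable.encode c) w s := by
    intro w
    have e1 : q1 w ↔ (eval c w).Dom := by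
      rw [h1, hcode, Nat.rfind_dom]
      simp
    rw [e1, Part.dom_iff_mem]
    simp only [evaln_complete, Runs, Denumerable.ofNat_encode, not_exists]
    constructor
    · intro h s
      exact Option.eq_none_iff_forall_not_mem.2 fun x hx => h x s hx
    · intro h x s hx
      rw [h s] at hx
      simp at hx
  refine ⟨Encodable.encode c, fun n => ?_⟩
  simp only [h4, h3, h2, key, P3, not_exists, not_forall, not_not]

/-- The rows whose boundedness expresses `P3 e k`. -/
noncomputable def row (e k b s : ℕ) : ℕ :=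
  if s ≤ b then 0 else least (fun c => Runs e (Nat.pair (Nat.pair k b) c) s) s + 1

theorem row_mono (e k b : ℕ) : Monotone (row e k b) := by
  intro s s' h
  unfold row
  split_ifs with h1 h2 h2
  · exact le_rfl
  · exact Nat.zero_le _
  · omega
  · refine Nat.succ_le_succ ?_
    rcases (least_le (fun c => Runs e (Nat.pair (Nat.pair k b) c) s') s').lt_or_eq with h3 | h3
    · exact least_le_of s ((least_spec h3).mono h)
    · rw [h3]
      exact (least_le _ s).trans h

theorem row_bdd (e k b : ℕ) :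
    (∃ M, ∀ a, row e k b a ≤ M) ↔ ∃ c, ∀ s, Runs e (Nat.pair (Nat.pair k b) c) s := by
  constructor
  · rintro ⟨M, hM⟩
    by_contra hn
    push Not at hn
    choose σ hσ using hn
    set s := b + M + 1 + ∑ c ∈ Finset.range (M + 1), σ c with hs
    have h1 := hM s
    rw [row, if_neg (by omega)] at h1
    set c := least (fun c => Runs e (Nat.pair (Nat.pair k b) c) s) s with hc
    have h2 : Runs e (Nat.pair (Nat.pair k b) c) s := least_spec (by omega : c < s)
    have h3 : σ c ≤ ∑ c ∈ Finset.range (M + 1), σ c :=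
      Finset.single_le_sum (f := σ) (fun _ _ => Nat.zero_le _) (Finset.mem_range.2 (by omega))
    exact hσ c (h2.mono (by omega))
  · rintro ⟨c, hc⟩
    refine ⟨c + 1, fun a => ?_⟩
    unfold row
    split_ifs
    · exact Nat.zero_le _
    · exact Nat.succ_le_succ (least_le_of a (hc a))

theorem row_zero (e k b a : ℕ) (h : a ≤ b) : row e k b a = 0 := if_pos h

/-- The guess made by `t` about `P3 e k`. -/
def guess (e k t : ℕ) : Prop := (rep (row e k) (supp t)).ncard % 3 ≠ 1

theorem Idem.guess {U : Ultrafilter ℕ} (hU : Idem U) (e k : ℕ) :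
    ∀ᶠ t in U, (guess e k t ↔ P3 e k) := by
  have h := hU.nodes (F := row e k) (row_zero e k)
    (fun b a h => by rw [row, if_neg (by omega)]; omega) (row_mono e k)
  simp only [row_bdd] at h
  exact h

section

variable {α : Type} [Primcodable α]

theorem pp_runs {e w s : α → ℕ} (he : Primrec e) (hw : Primrec w) (hs : Primrec s) :
    PrimrecPred fun a => Runs (e a) (w a) (s a) :=
  pp_eq (primrec_evaln.comp ((hs.pair ((Primrec.ofNat Code).comp he)).pair hw))
    (Primrec.const Option.none)

@[fun_prop] theorem pr_row {e k b s : α → ℕ} (he : Primrec e) (hk : Primrec k) (hb : Primrec b)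
    (hs : Primrec s) : Primrec fun a => row (e a) (k a) (b a) (s a) := by
  unfold row
  refine Primrec.ite (pp_le hs hb) (Primrec.const 0) (pr_add ?_ (Primrec.const 1))
  exact pr_least (p := fun a c => Runs (e a) (Nat.pair (Nat.pair (k a) (b a)) c) (s a))
    (pp_runs (by fun_prop) (by fun_prop) (by fun_prop)) hs

theorem pp_agree {e k b x y : α → ℕ} (he : Primrec e) (hk : Primrec k) (hb : Primrec b)
    (hx : Primrec x) (hy : Primrec y) :
    PrimrecPred fun a => agree (row (e a) (k a)) (b a) (x a) (y a) :=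
  pp_all_lt (p := fun a i => row (e a) (k a) i (x a) = row (e a) (k a) i (y a))
    (pp_eq (by fun_prop) (by fun_prop)) hb

theorem pp_supp {t x : α → ℕ} (ht : Primrec t) (hx : Primrec x) :
    PrimrecPred fun a => x a ∈ supp (t a) :=
  pp_eq (f := fun a => (t a).testBit (x a)) (by fun_prop) (Primrec.const true)

theorem pp_rep {e k t b x : α → ℕ} (he : Primrec e) (hk : Primrec k) (ht : Primrec t)
    (hb : Primrec b) (hx : Primrec x) :
    PrimrecPred fun a => (b a, x a) ∈ rep (row (e a) (k a)) (supp (t a)) := by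
  have h1 : PrimrecPred fun a => ∀ a0 < x a, a0 ∈ supp (t a) →
      ¬ agree (row (e a) (k a)) (b a) a0 (x a) :=
    pp_all_lt (p := fun a a0 => a0 ∈ supp (t a) → ¬ agree (row (e a) (k a)) (b a) a0 (x a))
      (pp_imp (pp_supp (by fun_prop) (by fun_prop))
        (pp_agree (by fun_prop) (by fun_prop) (by fun_prop) (by fun_prop) (by fun_prop)).not) hx
  have h2 : PrimrecPred fun a => ∃ a' < t a, a' ∈ supp (t a) ∧
      agree (row (e a) (k a)) (b a) (x a) a' ∧
        row (e a) (k a) (b a) (x a) ≠ row (e a) (k a) (b a) a' :=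
    pp_ex_lt (p := fun a a' => a' ∈ supp (t a) ∧ agree (row (e a) (k a)) (b a) (x a) a' ∧
        row (e a) (k a) (b a) (x a) ≠ row (e a) (k a) (b a) a')
      ((pp_supp (by fun_prop) (by fun_prop)).and
        ((pp_agree (by fun_prop) (by fun_prop) (by fun_prop) (by fun_prop) (by fun_prop)).and
          (pp_eq (by fun_prop) (by fun_prop)).not)) ht
  refine ((pp_supp ht hx).and (h1.and h2)).of_eq fun a => ?_
  simp only [rep, Set.mem_ofPred_eq]
  refine and_congr_right fun _ => and_congr_right fun _ => ?_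
  exact ⟨fun ⟨a', _, h⟩ => ⟨a', h⟩, fun ⟨a', h⟩ => ⟨a', supp_lt h.1, h⟩⟩

open Classical in
theorem ncard_eq_count {S : Set (ℕ × ℕ)} {L : ℕ} (h : S ⊆ Set.Iio L ×ˢ Set.Iio L) :
    S.ncard = Nat.count (fun p => (p.unpair.1, p.unpair.2) ∈ S) (L ^ 2) := by
  rw [Nat.count_eq_card_filter_range, ← Set.ncard_coe_finset]
  symm
  refine Set.ncard_congr (fun p _ => p.unpair) (fun p hp => ?_) (fun p q _ _ hpq => ?_)
    fun y hy => ⟨Nat.pair y.1 y.2, ?_, by simp⟩
  · simpa using (Finset.mem_filter.1 hp).2
  · rw [← Nat.pair_unpair p, hpq, Nat.pair_unpair]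
  · obtain ⟨h1, h2⟩ := h hy
    have h3 : max y.1 y.2 + 1 ≤ L := by
      simp only [Set.mem_Iio] at h1 h2
      omega
    have h4 := (Nat.pair_lt_max_add_one_sq y.1 y.2).trans_le (Nat.pow_le_pow_left h3 2)
    simpa using ⟨h4, hy⟩

theorem pp_guess {e k t : α → ℕ} (he : Primrec e) (hk : Primrec k) (ht : Primrec t) :
    PrimrecPred fun a => guess (e a) (k a) (t a) := by
  classical
  have h1 : Primrec fun a => (rep (row (e a) (k a)) (supp (t a))).ncard := by
    refine (pr_count
      (p := fun a p => (p.unpair.1, p.unpair.2) ∈ rep (row (e a) (k a)) (supp (t a)))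
      (pp_rep (by fun_prop) (by fun_prop) (by fun_prop) (by fun_prop) (by fun_prop))
      (l := fun a => t a ^ 2) (by fun_prop)).of_eq fun a => ?_
    rw [ncard_eq_count (rep_subset (row_zero _ _) fun x hx => supp_lt hx)]
  exact (pp_eq (pr_mod h1 (Primrec.const 3)) (Primrec.const 1)).not

end

end Pool.Agent.MP_850d05_lc

end

-- part MP_850d05_lc.Colour
section

/-! A colouring that separates `x + t` from `t` for one prescribed `x` per top bit. -/

namespace Pool.Agent.MP_850d05_lc

/-- The part of `n` above bit `a`. -/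
def hi (a n : ℕ) : ℕ := 2 ^ (a + 1) * (n / 2 ^ (a + 1))

/-- The partner of `n` at level `a`. -/
def mate (W : ℕ → ℕ → ℕ) (a n : ℕ) : ℕ := W a (hi a n) % 2 ^ (a + 1) + hi a n

/-- The parity contributed by the bits below `a`. -/
def par (W : ℕ → ℕ → ℕ) : ℕ → ℕ → Bool
  | 0, _ => false
  | a + 1, n => xor (par W a n) (n.testBit a && !(par W a (mate W a n)))

variable {W : ℕ → ℕ → ℕ}

theorem par_stable (n : ℕ) {L : ℕ} (h : n ≤ L) : par W L n = par W n n := by
  induction L, h using Nat.le_induction with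
  | base => rfl
  | succ L h ih =>
    have : n.testBit L = false :=
      Nat.testBit_lt_two_pow (Nat.lt_two_pow_self.trans_le (Nat.pow_le_pow_right two_pos h))
    simp [par, this, ih]

theorem par_low {t K : ℕ} (h : 2 ^ K ∣ t) : ∀ a ≤ K, par W a t = false := by
  intro a ha
  induction a with
  | zero => rfl
  | succ a ih =>
    have : t.testBit a = false := by
      by_contra h1
      have := supp_ge (a := a) h (by simpa [supp] using h1)
      omega
    simp [par, this, ih (by omega)]

theorem hi_add {x t a L : ℕ} (hx : x < 2 ^ (a + 1)) (h : 2 ^ (a + 1) ∣ t) (hL : a ≤ L) :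
    hi L (x + t) = hi L t := by
  obtain ⟨u, rfl⟩ := h
  obtain ⟨d, rfl⟩ := Nat.exists_eq_add_of_le hL
  unfold hi
  congr 1
  rw [show a + d + 1 = (a + 1) + d by ring, pow_add 2 (a + 1) d, ← Nat.div_div_eq_div_mul,
    ← Nat.div_div_eq_div_mul, Nat.add_mul_div_left _ _ (Nat.two_pow_pos _), Nat.div_eq_of_lt hx,
    zero_add, Nat.mul_div_cancel_left _ (Nat.two_pow_pos _)]

theorem par_flip {x t a : ℕ} (h1 : 2 ^ a ≤ x) (h2 : x < 2 ^ (a + 1)) (h : 2 ^ (a + 1) ∣ t)
    (hW : W a t = x) : par W (x + t) (x + t) = !(par W t t) := by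
  have key : ∀ L, a + 1 ≤ L → par W L (x + t) = !(par W L t) := by
    intro L hL
    induction L, hL using Nat.le_induction with
    | base =>
      have e1 : hi a t = t := Nat.mul_div_cancel' h
      have e2 : mate W a (x + t) = x + t := by
        rw [mate, hi_add h2 h le_rfl, e1, hW, Nat.mod_eq_of_lt h2]
      have e3 : (x + t).testBit a = true := by
        rw [testBit_add h2 h, Nat.testBit_of_two_pow_le_and_two_pow_add_one_gt h1 h2]
        rfl
      rw [par_low h (a + 1) le_rfl, par, e2, e3]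
      cases par W a (x + t) <;> rfl
    | succ L hL ih =>
      have e2 : mate W L (x + t) = mate W L t := by
        rw [mate, mate, hi_add h2 h (by omega)]
      have e3 : (x + t).testBit L = t.testBit L := by
        rw [testBit_add h2 h,
          Nat.testBit_lt_two_pow (h2.trans_le (Nat.pow_le_pow_right two_pos hL))]
        rfl
      rw [par, par, e2, e3, ih]
      cases par W L t <;> simp
  rw [← par_stable (x + t) (L := x + t + (a + 1)) (by omega),
    ← par_stable t (L := x + t + (a + 1)) (by omega)]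
  exact key _ (by omega)

theorem mate_lt {a n m : ℕ} (ha : a < n) (hm : m < 2 ^ n) : mate W a m < 2 ^ n := by
  obtain ⟨d, rfl⟩ := Nat.exists_eq_add_of_lt ha
  have h1 : W a (hi a m) % 2 ^ (a + 1) < 2 ^ (a + 1) := Nat.mod_lt _ (Nat.two_pow_pos _)
  have e : 2 ^ (a + d + 1) = 2 ^ (a + 1) * 2 ^ d := by ring
  have h2 : m / 2 ^ (a + 1) < 2 ^ d := by
    rw [Nat.div_lt_iff_lt_mul (Nat.two_pow_pos _), mul_comm, ← e]
    exact hm
  have h3 : 2 ^ (a + 1) * (m / 2 ^ (a + 1) + 1) ≤ 2 ^ (a + 1) * 2 ^ d :=
    Nat.mul_le_mul_left _ h2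
  rw [mate, e]
  unfold hi at h1 ⊢
  rw [mul_add, mul_one] at h3
  omega

theorem pr_par (hW : Primrec fun p : ℕ × ℕ => W p.1 p.2) : Primrec fun n => par W n n := by
  have hW' : ∀ {α : Type} [Primcodable α] {f g : α → ℕ}, Primrec f → Primrec g →
      Primrec fun a => W (f a) (g a) := fun hf hg => hW.comp (hf.pair hg)
  have hm : Primrec fun p : ℕ × ℕ => mate W p.1 p.2 := by
    unfold mate hi
    exact pr_add (pr_mod (hW' (by fun_prop) (by fun_prop)) (by fun_prop)) (by fun_prop)
  have hstep : Primrec₂ fun (n : ℕ) (y : ℕ × List Bool) => (List.range (2 ^ n)).map fun m =>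
      xor (y.2.getD m false) (m.testBit y.1 && !(y.2.getD (mate W y.1 m) false)) := by
    refine Primrec.list_map (f := fun p : ℕ × ℕ × List Bool => List.range (2 ^ p.1))
      (by fun_prop) ?_
    have h1 : Primrec fun q : (ℕ × ℕ × List Bool) × ℕ => mate W q.1.2.1 q.2 :=
      hm.comp (f := fun p : ℕ × ℕ => mate W p.1 p.2)
        (g := fun q : (ℕ × ℕ × List Bool) × ℕ => (q.1.2.1, q.2)) (by fun_prop)
    exact pr_xor (by fun_prop) (pr_and (by fun_prop) (pr_not (pr_getD false (by fun_prop) h1)))
  have hT := Primrec.nat_rec' (f := fun n : ℕ => n)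
    (g := fun n : ℕ => (List.range (2 ^ n)).map fun _ => false) Primrec.id (by fun_prop) hstep
  refine (pr_getD false hT Primrec.id).of_eq fun n => ?_
  have key : ∀ a ≤ n, (Nat.rec (motive := fun _ => List Bool)
      ((List.range (2 ^ n)).map fun _ => false) (fun a IH => (List.range (2 ^ n)).map fun m =>
      xor (IH.getD m false) (m.testBit a && !(IH.getD (mate W a m) false))) a) =
      (List.range (2 ^ n)).map (par W a) := by
    intro a ha
    induction a with
    | zero => rfl
    | succ a ih =>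
      simp only
      rw [ih (by omega)]
      refine List.map_congr_left fun m hm => ?_
      have hm' := List.mem_range.1 hm
      have hm2 : mate W a m < 2 ^ n := mate_lt (by omega) hm'
      simp [par, List.getD, hm', hm2]
  simp only [id]
  rw [key n le_rfl]
  simp [List.getD, Nat.lt_two_pow_self]

end Pool.Agent.MP_850d05_lc

end

-- part MP_850d05_lc.Main
section

/-! The diagonalisation against all Sigma four sets. -/

namespace Pool.Agent.MP_850d05_lc

open Filter

/-- `k` codes an element that `t` believes to lie in the `e`-th Sigma four set and whose top bit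
differs from the top bits of the members of `l`. -/
def good (e t : ℕ) (l : List ℕ) (k : ℕ) : Prop :=
  guess e k t ∧ 0 < k.unpair.1 ∧ ∀ y ∈ l, Nat.log 2 y ≠ Nat.log 2 k.unpair.1

/-- The elements picked by the first requirements. -/
noncomputable def used (t : ℕ) : ℕ → List ℕ
  | 0 => []
  | e + 1 => (least (good e t (used t e)) t).unpair.1 :: used t e

/-- The element picked by requirement `e`. -/
noncomputable def pick (t e : ℕ) : ℕ := (least (good e t (used t e)) t).unpair.1

/-- The element with top bit `a` that `t` attacks. -/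
noncomputable def wit (a t : ℕ) : ℕ := pick t (least (fun i => Nat.log 2 (pick t i) = a) t)

theorem used_length (t e : ℕ) : (used t e).length = e := by
  induction e with
  | zero => rfl
  | succ e ih => simp [used, ih]

theorem pick_mem (t : ℕ) {i e : ℕ} (h : i < e) : pick t i ∈ used t e := by
  induction e with
  | zero => omega
  | succ e ih =>
    rcases (Nat.lt_succ_iff.1 h).lt_or_eq with h | rfl
    · exact List.mem_cons_of_mem _ (ih h)
    · exact List.mem_cons_self

theorem wit_eq {e t : ℕ} (he : e < t) (hg : good e t (used t e) (least (good e t (used t e)) t)) :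
    wit (Nat.log 2 (pick t e)) t = pick t e := by
  have h1 : least (fun i => Nat.log 2 (pick t i) = Nat.log 2 (pick t e)) t ≤ e :=
    least_le_of t rfl
  have h2 := least_spec (h1.trans_lt he)
  rcases h1.lt_or_eq with h3 | h3
  · exact absurd h2 (hg.2.2 _ (pick_mem t h3))
  · rw [wit, h3]

section

variable {α : Type} [Primcodable α]

theorem pr_step {e t : α → ℕ} {l : α → List ℕ} (he : Primrec e) (ht : Primrec t)
    (hl : Primrec l) : Primrec fun a => (least (good (e a) (t a) (l a)) (t a)).unpair.1 := by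
  refine pr_fst (pr_unpair (pr_least (p := fun a k => good (e a) (t a) (l a) k) ?_ ht))
  refine (pp_guess (by fun_prop) (by fun_prop) (by fun_prop)).and
    ((pp_lt (by fun_prop) (by fun_prop)).and ?_)
  exact pp_all (p := fun (x : α × ℕ) y => Nat.log 2 y ≠ Nat.log 2 x.2.unpair.1)
    (pp_eq (by fun_prop) (by fun_prop)).not (by fun_prop)

theorem pr_used {t e : α → ℕ} (ht : Primrec t) (he : Primrec e) :
    Primrec fun a => used (t a) (e a) := by
  have h1 : Primrec₂ fun (a : α) (y : ℕ × List ℕ) =>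
      (least (good y.1 (t a) y.2) (t a)).unpair.1 :: y.2 :=
    pr_cons (pr_step (by fun_prop) (by fun_prop) (by fun_prop)) (by fun_prop)
  refine (Primrec.nat_rec' he (Primrec.const []) h1).of_eq fun a => ?_
  induction e a with
  | zero => rfl
  | succ n ih => simp only [used, ← ih]

theorem pr_pick {t e : α → ℕ} (ht : Primrec t) (he : Primrec e) :
    Primrec fun a => pick (t a) (e a) := pr_step he ht (pr_used ht he)

theorem pr_wit : Primrec fun p : ℕ × ℕ => wit p.1 p.2 :=
  pr_pick Primrec.snd (pr_least (p := fun (p : ℕ × ℕ) i => Nat.log 2 (pick p.2 i) = p.1)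
    (pp_eq (pr_log (pr_pick (by fun_prop) (by fun_prop))) (by fun_prop)) Primrec.snd)

end

theorem many_tops {X : Set ℕ} (hX : X.Infinite) (h0 : ∀ x ∈ X, 0 < x) {e : ℕ}
    (he : ∀ n, n ∈ X ↔ ∃ y, P3 e (Nat.pair n y)) :
    ∃ N, ∀ l : List ℕ, l.length = e →
      ∃ k ≤ N, P3 e k ∧ 0 < k.unpair.1 ∧ ∀ y ∈ l, Nat.log 2 y ≠ Nat.log 2 k.unpair.1 := by
  classical
  have hinf : (Nat.log 2 '' X).Infinite := by
    intro hf
    obtain ⟨M, hM⟩ := hf.bddAbove
    obtain ⟨x, hx, hlt⟩ := hX.exists_gt (2 ^ (M + 1))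
    have h1 : Nat.log 2 x ≤ M := hM ⟨x, hx, rfl⟩
    have h2 := Nat.lt_pow_succ_log_self one_lt_two x
    have h3 : 2 ^ (Nat.log 2 x).succ ≤ 2 ^ (M + 1) := Nat.pow_le_pow_right two_pos (by omega)
    omega
  obtain ⟨T, hT, hcard⟩ := hinf.exists_subset_card_eq (e + 1)
  have hk : ∀ a, ∃ k, a ∈ T → P3 e k ∧ 0 < k.unpair.1 ∧ Nat.log 2 k.unpair.1 = a := by
    intro a
    by_cases ha : a ∈ T
    · obtain ⟨x, hx, rfl⟩ := hT ha
      obtain ⟨y, hy⟩ := (he x).1 hx
      exact ⟨Nat.pair x y, fun _ => ⟨hy, by simpa using h0 x hx, by simp⟩⟩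
    · exact ⟨0, fun h => absurd h ha⟩
  choose κ hκ using hk
  refine ⟨∑ a ∈ T, κ a, fun l hl => ?_⟩
  have hc : (l.map (Nat.log 2)).toFinset.card < T.card := by
    have := List.toFinset_card_le (l.map (Nat.log 2))
    rw [List.length_map] at this
    omega
  obtain ⟨a, ha, hna⟩ := Finset.exists_mem_notMem_of_card_lt_card hc
  obtain ⟨k1, k2, k3⟩ := hκ a ha
  refine ⟨κ a, Finset.single_le_sum (f := κ) (fun _ _ => Nat.zero_le _) ha, k1, k2, fun y hy h => ?_⟩
  exact hna (by simpa using ⟨y, hy, h.trans k3⟩)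

theorem attack {X : Set ℕ} (hX : X.Infinite) (h0 : ∀ x ∈ X, 0 < x) (hS : IsSigma 4 (· ∈ X)) :
    ∃ x ∈ X, ∃ G : Finset ℕ, G.Nonempty ∧ (G : Set ℕ) ⊆ X ∧ x ∉ G ∧
      par wit (x + ∑ y ∈ G, y) (x + ∑ y ∈ G, y) = !(par wit (∑ y ∈ G, y) (∑ y ∈ G, y)) := by
  obtain ⟨e, he⟩ := exists_index hS
  obtain ⟨N, hN⟩ := many_tops hX h0 he
  have hX' : (X \ Set.Iic N).Infinite := hX.sdiff (Set.finite_Iic N)
  obtain ⟨U, hU, hFS⟩ := exists_idem hX' fun x hx => h0 x hx.1
  have hg : ∀ᶠ t in U, ∀ k ∈ Set.Iic N, (guess e k t ↔ P3 e k) :=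
    (eventually_all_finite (Set.finite_Iic N)).2 fun k _ => hU.guess e k
  obtain ⟨t, t1, t2, t3, G, g1, g2, g3⟩ :=
    (hg.and (hU.pos.and ((hU.dvd (Nat.two_pow_pos (N + e + 1))).and hFS))).exists
  have t4 : N + e + 1 < t := Nat.lt_two_pow_self.trans_le (Nat.le_of_dvd (by omega) t3)
  obtain ⟨k, k1, k2, k3⟩ := hN (used t e) (used_length t e)
  have h1 : least (good e t (used t e)) t ≤ k := least_le_of t ⟨(t1 k k1).2 k2, k3⟩
  have h2 := least_spec (show least (good e t (used t e)) t < t by omega)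
  have h3 := wit_eq (show e < t by omega) h2
  have hxle : pick t e ≤ N := (Nat.unpair_left_le _).trans (h1.trans k1)
  have hxpos : 0 < pick t e := h2.2.1
  have hxX : pick t e ∈ X := by
    refine (he _).2 ⟨(least (good e t (used t e)) t).unpair.2, ?_⟩
    rw [pick, Nat.pair_unpair]
    exact (t1 _ (h1.trans k1)).1 h2.1
  refine ⟨pick t e, hxX, G, g1, fun y hy => (g2 hy).1, fun h => (g2 h).2 hxle, ?_⟩
  rw [g3]
  have h4 : Nat.log 2 (pick t e) ≤ pick t e := Nat.log_le_self 2 _
  exact par_flip (Nat.pow_log_le_self 2 hxpos.ne') (Nat.lt_pow_succ_log_self one_lt_two _)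
    ((pow_dvd_pow 2 (by omega)).trans t3) h3

theorem IsSigma.succ : ∀ {n : ℕ} {p : ℕ → Prop}, IsSigma n p → IsSigma (n + 1) p
  | 0, p, ⟨_, hp⟩ => ⟨fun w => ¬ p w.unpair.1,
      ComputablePred.not ⟨inferInstance, hp.comp (Primrec.fst.comp Primrec.unpair).to_comp⟩,
      fun x => by simp⟩
  | _ + 1, _, ⟨q, hq, h⟩ => ⟨q, hq.succ, h⟩

theorem IsSigma.mono {n m : ℕ} {p : ℕ → Prop} (h : n ≤ m) (hp : IsSigma n p) : IsSigma m p := by
  induction m, h using Nat.le_induction with
  | base => exact hp
  | succ m _ ih => exact ih.succ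

theorem main : ∃ c : ℕ → Fin 2, Computable c ∧
    ∀ X : Set ℕ, IsSolution c X → ∀ n ≤ 4, ¬ IsSigma n (· ∈ X) := by
  classical
  refine ⟨fun n => cond (par wit n n) 1 0,
    (Primrec.cond (pr_par pr_wit) (Primrec.const 1) (Primrec.const 0)).to_comp, ?_⟩
  rintro X ⟨hX, h0, i, hi⟩ n hn hS
  obtain ⟨x, hx, G, g1, g2, g3, h⟩ := attack hX h0 (hS.mono hn)
  have h1 := hi G g1 g2
  have h2 := hi (insert x G) (by simp) (by rw [Finset.coe_insert]; exact Set.insert_subset hx g2)
  rw [Finset.sum_insert g3, ← h1] at h2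
  simp only [h] at h2
  revert h2
  cases par wit (∑ y ∈ G, y) (∑ y ∈ G, y) <;> simp

end Pool.Agent.MP_850d05_lc

end
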